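import Pool.Agent.Helper218_SB.LowerOne
import Pool.Agent.Helper218_SB.Final
import Pool.Agent.Helper218_SB.UTwo

/-!
# MP_919f0c_an, Question 2: the right order of `ϱ_m(𝐁^r_{1,1}, L_1)`

For every `d ≥ 1` and `1 < r < k`,
`ϱ_m(𝐁^r_{1,1}, L_1) ≍ m^{-r} (log m)^{(d-1) r}` for all `m ≥ 2`.
-/

namespace Pool.Agent.Results.MP_919f0c_an.OrderB11

open Pool.Agent.Helper218_SB
open scoped ENNReal

theorem result (𝕜 : Type) [RCLike 𝕜] (d k : ℕ) (hd : 1 ≤ d) (r : ℝ) (hr : 1 < r) (hk : r < k) :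
    ∃ c C : ℝ, 0 < c ∧ 0 < C ∧ ∀ m : ℕ, 2 ≤ m →
      ENNReal.ofReal (c * ((m : ℝ) ^ (-r) * (Real.log m) ^ (((d : ℝ) - 1) * r))) ≤
        samplingNumber m (besovClass 𝕜 d k r 1 1) 1 ∧
      samplingNumber m (besovClass 𝕜 d k r 1 1) 1 ≤
        ENNReal.ofReal (C * ((m : ℝ) ^ (-r) * (Real.log m) ^ (((d : ℝ) - 1) * r))) := by
  obtain ⟨d', rfl⟩ : ∃ d', d = d' + 1 := ⟨d - 1, by omega⟩
  have hr0 : 0 < r := by linarith
  obtain ⟨c, hc, h⟩ := exists_lower_all d' r 1 hr0 zero_le_one le_rfl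
    (fun m => samplingNumber m (besovClass 𝕜 (d' + 1) k r 1 1) 1)
    (by simpa using lower_q_one 𝕜 d' k r hr0 hk 1 le_rfl)
  obtain ⟨C, hC, h'⟩ := upper_all 𝕜 false d' hr0 (fun _ => hr) hk 1 le_rfl
  refine ⟨c, C, hc, hC, fun m hm => ⟨?_, ?_⟩⟩
  · have := h m (by omega)
    push_cast
    simpa using this
  · have := h' m hm
    push_cast
    simpa [pp] using this

end Pool.Agent.Results.MP_919f0c_an.OrderB11
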