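import Pool.Agent.Helper218_SB.LowerTop
import Pool.Agent.Helper218_SB.Final
import Pool.Agent.Helper218_SB.UTwo

/-!
# MP_919f0c_an, Question 1 at `p = ∞`: the right order of `ϱ_m(𝐁^r_{∞,θ}, L_∞)`

For every `d ≥ 1`, `1 < θ ≤ ∞` and `0 < r < k`,
`ϱ_m(𝐁^r_{∞,θ}, L_∞) ≍ m^{-r} (log m)^{(d-1) (r + 1 - 1/θ)}` for all `m ≥ 2`.
-/

namespace Pool.Agent.Results.MP_919f0c_an.OrderSup

open Pool.Agent.Helper218_SB
open scoped ENNReal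

theorem result (𝕜 : Type) [RCLike 𝕜] (d k : ℕ) (hd : 1 ≤ d) (r : ℝ) (hr : 0 < r) (hk : r < k)
    (θ : ℝ≥0∞) (hθ : 1 < θ) :
    ∃ c C : ℝ, 0 < c ∧ 0 < C ∧ ∀ m : ℕ, 2 ≤ m →
      ENNReal.ofReal (c * ((m : ℝ) ^ (-r) *
        (Real.log m) ^ (((d : ℝ) - 1) * (r + 1 - (θ⁻¹).toReal)))) ≤
        samplingNumber m (besovClass 𝕜 d k r ∞ θ) ∞ ∧
      samplingNumber m (besovClass 𝕜 d k r ∞ θ) ∞ ≤
        ENNReal.ofReal (C * ((m : ℝ) ^ (-r) *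
          (Real.log m) ^ (((d : ℝ) - 1) * (r + 1 - (θ⁻¹).toReal)))) := by
  obtain ⟨d', rfl⟩ : ∃ d', d = d' + 1 := ⟨d - 1, by omega⟩
  have ht : (θ⁻¹).toReal ≤ 1 := by
    have h1 : θ⁻¹ ≤ 1 := ENNReal.inv_le_one.2 hθ.le
    simpa using ENNReal.toReal_mono ENNReal.one_ne_top h1
  obtain ⟨c, hc, h⟩ := exists_lower_all d' r (θ⁻¹).toReal hr ENNReal.toReal_nonneg ht
    (fun m => samplingNumber m (besovClass 𝕜 (d' + 1) k r ∞ θ) ∞)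
    (lower_q_top 𝕜 d' k r hr hk θ hθ.le)
  obtain ⟨C, hC, h'⟩ := upper_all 𝕜 true d' hr (fun h => by simp at h) hk θ hθ.le
  refine ⟨c, C, hc, hC, fun m hm => ⟨?_, ?_⟩⟩
  · have := h m (by omega)
    push_cast
    simpa using this
  · have := h' m hm
    push_cast
    simpa [pp] using this

end Pool.Agent.Results.MP_919f0c_an.OrderSup
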